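import Pool.Agent.W2helper8.ZQ.Stm
import Pool.Agent.H306R2.EP

set_option autoImplicit false

/-!
Project ZQ (helper8), piece ZC1: the modulus of the Dirichlet series of `ζ ^ b` to the right of `Re s = 1`.
-/

namespace Pool.Agent.W2helper68.ZQ.ZC1

open Finset Filter Topology Complex
open Pool.Agent.H306R2 Pool.Agent.W2helper8.ZQ

noncomputable section

/-! ### the binomial series -/

lemma choose_eq (b : ℝ) (n : ℕ) : Ring.choose ((b : ℂ) + n - 1) n = ((lc b n : ℝ) : ℂ) := by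
  have h1 : Ring.choose ((b : ℂ) + n - 1) n = Ring.multichoose (b : ℂ) n := by
    unfold Ring.choose
    congr 1
    ring
  rw [h1]
  have h2 := Ring.factorial_nsmul_multichoose_eq_ascPochhammer (b : ℂ) n
  rw [Polynomial.ascPochhammer_smeval_eq_eval] at h2
  have h3 : ∀ n : ℕ, (ascPochhammer ℂ n).eval (b : ℂ) = (n.factorial : ℂ) * ((lc b n : ℝ) : ℂ) := by
    intro n
    induction n with
    | zero => simp [lc]
    | succ n ih =>
      rw [ascPochhammer_succ_eval, ih]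
      unfold lc
      rw [Finset.prod_range_succ, Nat.factorial_succ]
      have h4 : ((n : ℂ) + 1) ≠ 0 := Nat.cast_add_one_ne_zero n
      push_cast
      field_simp
  rw [h3, nsmul_eq_mul] at h2
  have h5 : (n.factorial : ℂ) ≠ 0 := Nat.cast_ne_zero.2 (Nat.factorial_ne_zero n)
  exact mul_left_cancel₀ h5 h2

lemma hasSum_lc (b : ℝ) (x : ℂ) (hx : ‖x‖ < 1) :
    HasSum (fun m : ℕ => ((lc b m : ℝ) : ℂ) * x ^ m) (1 / (1 - x) ^ (b : ℂ)) := by
  have h1 := Complex.one_div_one_sub_cpow_hasFPowerSeriesOnBall_zero (b : ℂ)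
  have h2 : x ∈ Metric.eball (0 : ℂ) 1 := by
    rw [← ENNReal.ofReal_one, Metric.eball_ofReal]
    simpa using hx
  have h3 := h1.hasSum h2
  rw [zero_add] at h3
  have h4 : (fun m : ℕ => ((lc b m : ℝ) : ℂ) * x ^ m) =
      fun n => (FormalMultilinearSeries.ofScalars ℂ
      fun n : ℕ => Ring.choose ((b : ℂ) + n - 1) n) n fun _ => x := by
    funext n
    rw [FormalMultilinearSeries.ofScalars_apply_eq, choose_eq, smul_eq_mul]
  rw [h4]
  exact h3

/-! ### the coefficients -/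

lemma abs_lc_le (b : ℝ) (m : ℕ) : |lc b m| ≤ lc |b| m := by
  unfold lc
  rw [Finset.abs_prod]
  refine Finset.prod_le_prod (fun i _ => abs_nonneg _) fun i _ => ?_
  have h : (0 : ℝ) < (i : ℝ) + 1 := by positivity
  rw [abs_div, abs_of_pos h]
  have h2 : |b + i| ≤ |b| + i := (abs_add_le _ _).trans (by simp)
  gcongr

lemma abs_dv_le (b : ℝ) (n : ℕ) : |dv b n| ≤ dv |b| n := by
  unfold dv
  split_ifs
  · simp
  · unfold Finsupp.prod
    rw [Finset.abs_prod]
    exact Finset.prod_le_prod (fun _ _ => abs_nonneg _) fun _ _ => abs_lc_le _ _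

/-- the terms of the Dirichlet series -/
def tm (b : ℝ) (s : ℂ) (n : ℕ) : ℂ := ((dv b n : ℝ) : ℂ) * (n : ℂ) ^ (-s)

lemma tm_zero (b : ℝ) (s : ℂ) : tm b s 0 = 0 := by simp [tm, dv]

lemma tm_one (b : ℝ) (s : ℂ) : tm b s 1 = 1 := by simp [tm, dv_one]

lemma tm_mul (b : ℝ) (s : ℂ) {m n : ℕ} (h : m.Coprime n) :
    tm b s (m * n) = tm b s m * tm b s n := by
  have h1 : dv b (m * n) = dv b m * dv b n := (dA_mult b).map_mul_of_coprime h
  unfold tm
  rw [h1]
  push_cast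
  rw [Complex.natCast_mul_natCast_cpow]
  ring

lemma tm_norm_summable (b : ℝ) (s : ℂ) (hs : 1 < s.re) : Summable (fun n => ‖tm b s n‖) := by
  obtain ⟨J, hJ⟩ := exists_nat_ge |b|
  refine Summable.of_nonneg_of_le (fun n => norm_nonneg _) (fun n => ?_)
    (dvJ_summable J (σ := s.re - 1) (by linarith))
  rcases Nat.eq_zero_or_pos n with h0 | h0
  · subst h0; simp [tm, dv]
  · unfold tm
    rw [norm_mul, Complex.norm_natCast_cpow_of_pos h0, Complex.norm_real, Real.norm_eq_abs,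
      Complex.neg_re, show (-1 - (s.re - 1) : ℝ) = -s.re by ring]
    have h1 := (abs_dv_le b n).trans (dv_mono (abs_nonneg b) hJ n)
    gcongr

lemma tm_prime_pow (b : ℝ) (s : ℂ) {p : ℕ} (hp : p.Prime) (e : ℕ) :
    tm b s (p ^ e) = ((lc b e : ℝ) : ℂ) * ((p : ℂ) ^ (-s)) ^ e := by
  unfold tm
  rw [dv_prime_pow b hp]
  congr 1
  induction e with
  | zero => simp
  | succ e ih =>
    rw [pow_succ, Nat.cast_mul, Complex.natCast_mul_natCast_cpow, ih, pow_succ]

lemma norm_prime_lt (s : ℂ) (hs : 1 < s.re) {p : ℕ} (hp : p.Prime) : ‖(p : ℂ) ^ (-s)‖ < 1 := by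
  rw [Complex.norm_natCast_cpow_of_pos hp.pos, Complex.neg_re]
  exact Real.rpow_lt_one_of_one_lt_of_neg (by exact_mod_cast hp.one_lt) (by linarith)

lemma local_factor (b : ℝ) (s : ℂ) (hs : 1 < s.re) {p : ℕ} (hp : p.Prime) :
    ‖∑' e, tm b s (p ^ e)‖ = ‖(1 - (p : ℂ) ^ (-s))⁻¹‖ ^ b := by
  have h1 := norm_prime_lt s hs hp
  have h2 := (hasSum_lc b _ h1).tsum_eq
  have h3 : ∑' e, tm b s (p ^ e) = ∑' m : ℕ, ((lc b m : ℝ) : ℂ) * ((p : ℂ) ^ (-s)) ^ m :=
    tsum_congr fun e => tm_prime_pow b s hp e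
  rw [h3, h2, norm_div, norm_one, Complex.norm_cpow_real, norm_inv,
    Real.inv_rpow (norm_nonneg _), one_div]

/-- **ZC1.** -/
theorem p_zc1 : S_ZC1 := by
  intro b s hs
  -- the Euler product of the series
  have h1 : HasProd (fun p : Nat.Primes => ∑' e, tm b s ((p : ℕ) ^ e)) (∑' n, tm b s n) :=
    EulerProduct.eulerProduct_hasProd (tm_one b s) (fun {m n} h => tm_mul b s h)
      (tm_norm_summable b s hs) (tm_zero b s)
  have h2 : HasProd (fun p : Nat.Primes => ‖∑' e, tm b s ((p : ℕ) ^ e)‖) ‖∑' n, tm b s n‖ :=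
    h1.norm
  have h3 : HasProd (fun p : Nat.Primes => ‖(1 - ((p : ℕ) : ℂ) ^ (-s))⁻¹‖) ‖riemannZeta s‖ :=
    (riemannZeta_eulerProduct_hasProd hs).norm
  have h4 : HasProd (fun p : Nat.Primes => ‖(1 - ((p : ℕ) : ℂ) ^ (-s))⁻¹‖ ^ b)
      (‖riemannZeta s‖ ^ b) := by
    have hz : ‖riemannZeta s‖ ≠ 0 :=
      norm_ne_zero_iff.2 (riemannZeta_ne_zero_of_one_le_re hs.le)
    unfold HasProd at h3 ⊢
    refine (h3.rpow_const (Or.inl hz)).congr fun S => ?_
    exact (Real.finsetProd_rpow S _ (fun _ _ => norm_nonneg _) b).symm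
  have h5 : (fun p : Nat.Primes => ‖∑' e, tm b s ((p : ℕ) ^ e)‖) =
      fun p : Nat.Primes => ‖(1 - ((p : ℕ) : ℂ) ^ (-s))⁻¹‖ ^ b :=
    funext fun p => local_factor b s hs p.2
  rw [h5] at h2
  exact h2.unique h4

end

end Pool.Agent.W2helper68.ZQ.ZC1
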